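import Pool.Agent.Q163.Arc.Defs

/-!
# Basic facts on routings
-/

set_option autoImplicit false

namespace Q163.Arc

variable {V : Type*} {A : Set (V × V)} {X T : Set V} {R : Set (List V)}

/-- In a routing the paths give an injection from `X` to `T`. -/
lemma IsRouting.exists_injOn (h : IsRouting A X T R) :
    ∃ g : V → V, Set.InjOn g X ∧ ∀ x ∈ X, g x ∈ T := by
  classical
  have h1 : ∀ x : V, ∃ t : V, x ∈ X → t ∈ T ∧ ∃ p ∈ R, p.head? = some x ∧ p.getLast? = some t := by
    intro x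
    by_cases hx : x ∈ X
    · obtain ⟨p, hp, hpx⟩ := h.start x hx
      obtain ⟨t, ht, hpt⟩ := h.stop p hp
      exact ⟨t, fun _ => ⟨ht, p, hp, hpx, hpt⟩⟩
    · exact ⟨x, fun h' => absurd h' hx⟩
  choose g hg using h1
  refine ⟨g, ?_, fun x hx => (hg x hx).1⟩
  intro x hx y hy hxy
  obtain ⟨-, p, hp, hpx, hpt⟩ := hg x hx
  obtain ⟨-, q, hq, hqy, hqt⟩ := hg y hy
  have hpq : p = q := by
    by_contra hne
    refine h.disjoint p hp q hq hne (g x) (List.mem_of_getLast? hpt) ?_
    rw [hxy]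
    exact List.mem_of_getLast? hqt
  rw [hpq, hqy] at hpx
  exact (Option.some.inj hpx).symm

lemma IsRouting.finite (h : IsRouting A X T R) (hT : T.Finite) : X.Finite := by
  obtain ⟨g, hg, hgT⟩ := h.exists_injOn
  exact Set.Finite.of_injOn (f := g) hgT hg hT

lemma IsRouting.ncard_le (h : IsRouting A X T R) (hT : T.Finite) : X.ncard ≤ T.ncard := by
  obtain ⟨g, hg, hgT⟩ := h.exists_injOn
  exact Set.ncard_le_ncard_of_injOn g hgT hg hT

end Q163.Arc
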