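import Pool.Agent.Q163.Arc.Transport

/-!
# Adding coloops does not change the arc-complexity
-/

set_option autoImplicit false

namespace Q163.Arc

open Set

variable {α : Type}

/-- The matroid `M` with `j` coloops added. -/
def addColoops (M : Matroid α) (j : ℕ) : Matroid (α ⊕ Fin j) :=
  M.sum (Matroid.freeOn univ)

lemma addColoops_E (M : Matroid α) (j : ℕ) :
    (addColoops M j).E = Sum.inl '' M.E ∪ range Sum.inr := by
  simp [addColoops]

lemma addColoops_indep (M : Matroid α) (j : ℕ) (X : Set (α ⊕ Fin j)) :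
    (addColoops M j).Indep X ↔ M.Indep (Sum.inl ⁻¹' X) := by
  simp [addColoops]

lemma chain_strengthen {V : Type} {A : Set (V × V)} {K : Set V} (p : List V)
    (hp : p.IsChain (fun u v => (u, v) ∈ A)) (hK : ∀ v ∈ p, v ∉ K) :
    p.IsChain (fun u v => (u, v) ∈ {q : V × V | q ∈ A ∧ q.2 ∉ K}) := by
  induction p with
  | nil => simp
  | cons a l ih =>
    cases l with
    | nil => simp
    | cons b l =>
      rw [List.isChain_cons_cons] at hp ⊢
      refine ⟨⟨hp.1, hK b (by simp)⟩, ih hp.2 fun v hv => hK v (List.mem_cons_of_mem _ hv)⟩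

/-- A path that starts at a sink is trivial. -/
lemma path_sink {V : Type} {A : Set (V × V)} {t : V} (ht : ∀ v, (t, v) ∉ A) {p : List V}
    (hp : IsPath A p) (hpt : p.head? = some t) : p = [t] := by
  obtain ⟨-, -, hc⟩ := hp
  cases p with
  | nil => simp at hpt
  | cons a l =>
    simp only [List.head?_cons, Option.some.injEq] at hpt
    subst hpt
    cases l with
    | nil => rfl
    | cons b l =>
      rw [List.isChain_cons_cons] at hc
      exact absurd hc.1 (ht b)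

lemma addColoops_le (M : Matroid α) (j : ℕ) {a : ℕ}
    (ha : a ∈ arcCounts (addColoops M j)) : ∃ a' ≤ a, a' ∈ arcCounts M := by
  classical
  obtain ⟨V, hV, f, hf, A, T, hrep, hA⟩ := ha
  set K : Set V := f '' range Sum.inr with hK
  have hE := addColoops_E M j
  have hinlE : ∀ x ∈ M.E, (Sum.inl x : α ⊕ Fin j) ∈ (addColoops M j).E := by
    intro x hx; rw [hE]; exact Or.inl ⟨x, hx, rfl⟩
  have hinrE : ∀ k : Fin j, (Sum.inr k : α ⊕ Fin j) ∈ (addColoops M j).E := by
    intro k; rw [hE]; exact Or.inr ⟨k, rfl⟩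
  have hf1 : InjOn (f ∘ Sum.inl) M.E := by
    intro x hx y hy hxy
    exact Sum.inl.inj (hf (hinlE x hx) (hinlE y hy) hxy)
  -- the coloops are targets
  have hKT : K ⊆ T := by
    rintro _ ⟨_, ⟨k, rfl⟩, rfl⟩
    have hT : ((addColoops M j).map f hf).Indep T := by
      rw [hrep.indep_iff]
      refine ⟨hrep.target_subset, (fun t => [t]) '' T, ?_, ?_, ?_, ?_⟩
      · rintro _ ⟨t, -, rfl⟩
        exact ⟨by simp, by simp, by simp⟩
      · rintro _ ⟨t, -, rfl⟩ _ ⟨s, -, rfl⟩ hne v hv hv'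
        simp only [List.mem_cons, List.not_mem_nil, or_false] at hv hv'
        exact hne (by rw [← hv, ← hv'])
      · intro t ht; exact ⟨_, ⟨t, ht, rfl⟩, rfl⟩
      · rintro _ ⟨t, ht, rfl⟩; exact ⟨t, ht, rfl⟩
    rw [Matroid.map_indep_iff] at hT
    obtain ⟨T₀, hT₀, hTT⟩ := hT
    have h1 : (addColoops M j).Indep (insert (Sum.inr k) T₀) := by
      rw [addColoops_indep] at hT₀ ⊢
      have e : Sum.inl ⁻¹' (insert (Sum.inr k) T₀) = (Sum.inl ⁻¹' T₀ : Set α) := by
        ext x; simp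
      rw [e]; exact hT₀
    have h2 : ((addColoops M j).map f hf).Indep (insert (f (Sum.inr k)) T) := by
      rw [hTT, ← image_insert_eq]
      exact h1.map f hf
    rw [hrep.indep_iff] at h2
    obtain ⟨-, R, hR⟩ := h2
    have h3 := hR.ncard_le T.toFinite
    by_contra hn
    rw [ncard_insert_of_notMem hn T.toFinite] at h3
    omega
  set A₁ : Set (V × V) := {q : V × V | q ∈ A ∧ q.2 ∉ K} with hA₁
  have hmem : ∀ v, v ∈ f '' (addColoops M j).E → v ∉ K → v ∈ (f ∘ Sum.inl) '' M.E := by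
    rintro v ⟨x, hx, rfl⟩ hv
    rw [hE] at hx
    rcases hx with ⟨y, hy, rfl⟩ | ⟨k, rfl⟩
    · exact ⟨y, hy, rfl⟩
    · exact absurd ⟨_, ⟨k, rfl⟩, rfl⟩ hv
  have hnK : ∀ x ∈ M.E, f (Sum.inl x) ∉ K := by
    rintro x hx ⟨_, ⟨k, rfl⟩, h⟩
    have := hf (hinrE k) (hinlE x hx) h
    cases this
  refine ⟨A₁.ncard, ?_, V, hV, f ∘ Sum.inl, hf1, A₁, T \ K, ?_, rfl⟩
  · rw [← hA]
    exact ncard_le_ncard (fun q hq => hq.1) A.toFinite
  refine ⟨fun X => ⟨?_, ?_⟩, ?_, ?_, ?_⟩
  · rintro ⟨X₀, hX₀, rfl⟩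
    refine ⟨image_mono hX₀.subset_ground, ?_⟩
    have h1 : ((addColoops M j).map f hf).Indep (f '' (Sum.inl '' X₀ ∪ range Sum.inr)) := by
      refine Matroid.Indep.map ?_ f hf
      rw [addColoops_indep]
      have e : Sum.inl ⁻¹' (Sum.inl '' X₀ ∪ range (Sum.inr : Fin j → α ⊕ Fin j)) = X₀ := by
        ext x; simp
      rw [e]; exact hX₀
    rw [hrep.indep_iff] at h1
    obtain ⟨-, R, hR⟩ := h1
    have hav : ∀ p ∈ R, (∃ x ∈ (f ∘ Sum.inl) '' X₀, p.head? = some x) → ∀ v ∈ p, v ∉ K := by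
      rintro p hp ⟨_, ⟨x, hx, rfl⟩, hpx⟩ v hv hvK
      obtain ⟨q, hq, hqv⟩ := hR.start v (by
        obtain ⟨y, hy, rfl⟩ := hvK
        exact ⟨y, Or.inr hy, rfl⟩)
      have hqe := path_sink (hrep.sink v (hKT hvK)) (hR.path q hq) hqv
      by_cases hpq : p = q
      · rw [hpq, hqe] at hpx
        simp only [List.head?_cons, Option.some.injEq, Function.comp_apply] at hpx
        exact hnK x (hX₀.subset_ground hx) (hpx ▸ hvK)
      · exact hR.disjoint p hp q hq hpq v hv (by rw [hqe]; simp)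
    refine ⟨{p | p ∈ R ∧ ∃ x ∈ (f ∘ Sum.inl) '' X₀, p.head? = some x}, ?_, ?_, ?_, ?_⟩
    · rintro p ⟨hp, hx⟩
      obtain ⟨h1, h2, h3⟩ := hR.path p hp
      exact ⟨h1, h2, chain_strengthen p h3 (hav p hp hx)⟩
    · rintro p ⟨hp, -⟩ q ⟨hq, -⟩
      exact hR.disjoint p hp q hq
    · rintro _ ⟨x, hx, rfl⟩
      obtain ⟨p, hp, hpx⟩ := hR.start (f (Sum.inl x)) ⟨_, Or.inl ⟨x, hx, rfl⟩, rfl⟩
      exact ⟨p, ⟨hp, _, ⟨x, hx, rfl⟩, hpx⟩, hpx⟩
    · rintro p ⟨hp, hx⟩
      obtain ⟨t, ht, hpt⟩ := hR.stop p hp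
      exact ⟨t, ⟨ht, hav p hp hx t (List.mem_of_getLast? hpt)⟩, hpt⟩
  · rintro ⟨hX, R, hR⟩
    obtain ⟨X₀, hX₀, rfl⟩ := subset_image_iff.1 hX
    rw [Matroid.map_image_indep_iff hX₀]
    have h1 : ((addColoops M j).map f hf).Indep ((f ∘ Sum.inl) '' X₀) := by
      rw [hrep.indep_iff]
      refine ⟨?_, R, ?_, hR.disjoint, hR.start, ?_⟩
      · rintro _ ⟨x, hx, rfl⟩
        exact ⟨_, hinlE x (hX₀ hx), rfl⟩
      · intro p hp
        obtain ⟨h1, h2, h3⟩ := hR.path p hp
        exact ⟨h1, h2, h3.imp fun u v huv => huv.1⟩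
      · intro p hp
        obtain ⟨t, ht, hpt⟩ := hR.stop p hp
        exact ⟨t, ht.1, hpt⟩
    rw [image_comp, Matroid.map_image_indep_iff] at h1
    · rw [addColoops_indep] at h1
      rwa [preimage_image_eq _ Sum.inl_injective] at h1
    · rintro _ ⟨x, hx, rfl⟩
      exact hinlE x (hX₀ hx)
  · rintro t ⟨ht, htK⟩
    exact hmem t (hrep.target_subset ht) htK
  · intro t ht v hv
    exact hrep.sink t ht.1 v hv.1
  · rintro e ⟨x, hx, rfl⟩ he v hv
    refine hrep.source _ ⟨_, hinlE x hx, rfl⟩ (fun h => he ⟨h, hnK x hx⟩) v hv.1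

lemma le_addColoops (M : Matroid α) (j : ℕ) {a : ℕ}
    (ha : a ∈ arcCounts M) : a ∈ arcCounts (addColoops M j) := by
  classical
  obtain ⟨V, hV, f, hf, A, T, hrep, hA⟩ := ha
  have hE := addColoops_E M j
  have hf' : InjOn (Sum.map f id : α ⊕ Fin j → V ⊕ Fin j) (addColoops M j).E := by
    rw [hE]
    rintro x (⟨x, hx, rfl⟩ | ⟨k, rfl⟩) y (⟨y, hy, rfl⟩ | ⟨l, rfl⟩) hxy
    · simp only [Sum.map_inl, Sum.inl.injEq] at hxy
      rw [hf hx hy hxy]
    · simp at hxy
    · simp at hxy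
    · simpa using hxy
  have hmapE : ((addColoops M j).map _ hf').E = Sum.inl '' (f '' M.E) ∪ range Sum.inr := by
    rw [Matroid.map_ground, hE, image_union, ← image_comp, ← image_comp]
    congr 1
    ext x
    constructor
    · rintro ⟨_, ⟨k, rfl⟩, rfl⟩
      exact ⟨k, rfl⟩
    · rintro ⟨k, rfl⟩
      exact ⟨_, ⟨k, rfl⟩, rfl⟩
  have hbase : ∀ X : Set V, (∃ R, IsRouting A X T R) ↔
      ∃ R, IsRouting (Prod.map (Sum.inl : V → V ⊕ Fin j) Sum.inl '' A) (Sum.inl '' X)
        (Sum.inl '' T) R := fun X =>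
    routing_map_iff (U := univ) Sum.inl Sum.inl_injective.injOn
      (fun _ _ _ => ⟨trivial, trivial⟩) (subset_univ _) (subset_univ _)
  refine ⟨V ⊕ Fin j, inferInstance, Sum.map f id, hf',
    Prod.map (Sum.inl : V → V ⊕ Fin j) Sum.inl '' A, Sum.inl '' T ∪ range Sum.inr, ?_, ?_⟩
  · refine ⟨fun X => ⟨?_, ?_⟩, ?_, ?_, ?_⟩
    · intro hX
      refine ⟨hX.subset_ground, ?_⟩
      obtain ⟨X₀, hX₀, rfl⟩ := hX
      rw [addColoops_indep] at hX₀
      have h1 := hX₀.map f hf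
      rw [hrep.indep_iff] at h1
      obtain ⟨R, hR⟩ := (hbase _).1 h1.2
      have hRm : ∀ p ∈ R, ∀ v ∈ p, v ∈ range (Sum.inl : V → V ⊕ Fin j) :=
        hR.mem (U := range Sum.inl) (by
          rintro u v ⟨⟨a, b⟩, -, h⟩
          simp only [Prod.map_apply, Prod.mk.injEq] at h
          exact ⟨⟨a, h.1⟩, ⟨b, h.2⟩⟩) (by rintro _ ⟨t, -, rfl⟩; exact ⟨t, rfl⟩)
      refine ⟨R ∪ range (fun k : Fin j => [Sum.inr k]), ?_, ?_, ?_, ?_⟩
      · rintro p (hp | ⟨k, rfl⟩)
        · exact hR.path p hp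
        · exact ⟨by simp, by simp, by simp⟩
      · rintro p (hp | ⟨k, rfl⟩) q (hq | ⟨l, rfl⟩) hpq v hv hv'
        · exact hR.disjoint p hp q hq hpq v hv hv'
        · obtain ⟨w, rfl⟩ := hRm p hp v hv
          simp at hv'
        · obtain ⟨w, rfl⟩ := hRm q hq v hv'
          simp at hv
        · simp only [List.mem_cons, List.not_mem_nil, or_false] at hv hv'
          subst hv
          exact hpq (by simp only [hv'])
      · rintro _ ⟨x, hx, rfl⟩
        rcases x with x | k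
        · obtain ⟨p, hp, hpx⟩ := hR.start (Sum.inl (f x)) ⟨_, ⟨x, hx, rfl⟩, rfl⟩
          exact ⟨p, Or.inl hp, hpx⟩
        · exact ⟨_, Or.inr ⟨k, rfl⟩, rfl⟩
      · rintro p (hp | ⟨k, rfl⟩)
        · obtain ⟨t, ht, hpt⟩ := hR.stop p hp
          exact ⟨t, Or.inl ht, hpt⟩
        · exact ⟨Sum.inr k, Or.inr ⟨k, rfl⟩, rfl⟩
    · rintro ⟨hX, R, hR⟩
      rw [Matroid.map_ground] at hX
      obtain ⟨X₀, hX₀, rfl⟩ := subset_image_iff.1 hX
      rw [Matroid.map_image_indep_iff hX₀, addColoops_indep]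
      have hsub : (Sum.inl ⁻¹' X₀ : Set α) ⊆ M.E := by
        intro x hx
        have := hX₀ hx
        rw [hE] at this
        rcases this with ⟨y, hy, h⟩ | ⟨k, h⟩
        · rw [← Sum.inl.inj h]; exact hy
        · cases h
      rw [← Matroid.map_image_indep_iff (hf := hf) hsub, hrep.indep_iff, Matroid.map_ground]
      refine ⟨image_mono hsub, ?_⟩
      rw [hbase]
      have hinl : ∀ p : List (V ⊕ Fin j), p.IsChain (fun u v =>
          (u, v) ∈ Prod.map (Sum.inl : V → V ⊕ Fin j) Sum.inl '' A) →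
          (∃ x : V, p.head? = some (Sum.inl x)) → ∀ v ∈ p, v ∈ range (Sum.inl : V → V ⊕ Fin j) := by
        intro p
        induction p with
        | nil => intro _ _ v hv; simp at hv
        | cons a l ih =>
          rintro hc ⟨x, hx⟩ v hv
          simp only [List.head?_cons, Option.some.injEq] at hx
          subst hx
          rcases List.mem_cons.1 hv with h | h
          · exact ⟨x, h.symm⟩
          · cases l with
            | nil => simp at h
            | cons b l =>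
              rw [List.isChain_cons_cons] at hc
              refine ih hc.2 ?_ v h
              obtain ⟨⟨c, d⟩, -, h⟩ := hc.1
              simp only [Prod.map_apply, Prod.mk.injEq] at h
              exact ⟨d, by rw [List.head?_cons, h.2]⟩
      refine ⟨{p | p ∈ R ∧ ∃ x : V, p.head? = some (Sum.inl x)}, ?_, ?_, ?_, ?_⟩
      · rintro p ⟨hp, -⟩
        exact hR.path p hp
      · rintro p ⟨hp, -⟩ q ⟨hq, -⟩
        exact hR.disjoint p hp q hq
      · rintro _ ⟨_, ⟨x, hx, rfl⟩, rfl⟩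
        obtain ⟨p, hp, hpx⟩ := hR.start (Sum.inl (f x)) ⟨_, hx, rfl⟩
        exact ⟨p, ⟨hp, _, hpx⟩, hpx⟩
      · rintro p ⟨hp, hx⟩
        obtain ⟨t, ht, hpt⟩ := hR.stop p hp
        obtain ⟨s, hs⟩ := hinl p (hR.path p hp).2.2 hx t (List.mem_of_getLast? hpt)
        rcases ht with ht | ⟨k, hk⟩
        · exact ⟨t, ht, hpt⟩
        · rw [← hk] at hs; cases hs
    · rw [hmapE]
      apply union_subset_union_left
      apply image_mono
      exact hrep.target_subset
    · rintro t ht v ⟨⟨a, b⟩, hab, h⟩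
      simp only [Prod.map_apply, Prod.mk.injEq] at h
      obtain ⟨h1, h2⟩ := h
      subst h1
      rcases ht with ⟨s, hs, hst⟩ | ⟨k, hk⟩
      · rw [← Sum.inl.inj hst] at hab
        exact hrep.sink s hs b hab
      · cases hk
    · rintro e he heT v ⟨⟨a, b⟩, hab, h⟩
      simp only [Prod.map_apply, Prod.mk.injEq] at h
      obtain ⟨h1, h2⟩ := h
      subst h2
      rw [hmapE] at he
      rcases he with ⟨s, hs, hst⟩ | ⟨k, hk⟩
      · rw [Sum.inl.inj hst] at hs
        exact hrep.source b hs (fun hb => heT (Or.inl ⟨b, hb, rfl⟩)) a hab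
      · cases hk
  · rw [← hA]
    exact ncard_image_of_injective _ (Sum.inl_injective.prodMap Sum.inl_injective)

theorem arcC_addColoops (M : Matroid α) (j : ℕ)
    (hne : (arcCounts M).Nonempty) : arcC (addColoops M j) = arcC M := by
  apply le_antisymm
  · exact Nat.sInf_le (le_addColoops M j (Nat.sInf_mem hne))
  · obtain ⟨a, ha⟩ := hne
    have h1 : (arcCounts (addColoops M j)).Nonempty := ⟨a, le_addColoops M j ha⟩
    obtain ⟨a', ha', h⟩ := addColoops_le M j (Nat.sInf_mem h1)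
    exact (Nat.sInf_le h).trans ha'

end Q163.Arc
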