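import Pool.Agent.Q163.Arc.Family

/-!
# Counting: some bipartite gammoid has large arc-complexity
-/

set_option autoImplicit false

namespace Q163.Arc

open Set

lemma compress {α : Type} [Finite α] {M : Matroid α} (hE : M.E = univ) {a w : ℕ} (hw0 : 0 < w)
    (hw : Nat.card α + 2 * a ≤ w) (ha : a ∈ arcCounts M) :
    ∃ (f : α → Fin w) (A : Set (Fin w × Fin w)) (T : Set (Fin w)), A.ncard ≤ a ∧
      ∀ X, M.Indep X ↔ ∃ R, IsRouting A (f '' X) T R := by
  classical
  obtain ⟨V, hV, f, hf, A, T, hrep, hA⟩ := ha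
  set U : Set V := range f ∪ (Prod.fst '' A ∪ Prod.snd '' A) with hU
  have hUc : U.ncard ≤ w := by
    have h1 : (range f).ncard ≤ Nat.card α := by
      rw [← image_univ, ← ncard_univ]
      exact ncard_image_le
    have h2 : (Prod.fst '' A).ncard ≤ a := hA ▸ ncard_image_le
    have h3 : (Prod.snd '' A).ncard ≤ a := hA ▸ ncard_image_le
    have h4 := ncard_union_le (range f) (Prod.fst '' A ∪ Prod.snd '' A)
    have h5 := ncard_union_le (Prod.fst '' A) (Prod.snd '' A)
    rw [← hU] at h4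
    omega
  have hemb : Nonempty (U ↪ Fin w) := by
    have : Fintype U := Fintype.ofFinite U
    apply Function.Embedding.nonempty_of_card_le
    rw [Fintype.card_fin, ← Nat.card_eq_fintype_card]
    exact hUc
  obtain ⟨e⟩ := hemb
  let g : V → Fin w := fun v => if h : v ∈ U then e ⟨v, h⟩ else ⟨0, hw0⟩
  have hg : InjOn g U := by
    intro x hx y hy hxy
    simp only [g, hx, hy, dif_pos] at hxy
    exact congrArg Subtype.val (e.injective hxy)
  have hfU : ∀ X : Set α, f '' X ⊆ U := fun X => by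
    rintro _ ⟨x, -, rfl⟩
    exact Or.inl ⟨x, rfl⟩
  refine ⟨g ∘ f, Prod.map g g '' A, g '' T, hA ▸ ncard_image_le, fun X => ?_⟩
  have hT : T ⊆ U := by
    refine hrep.target_subset.trans ?_
    rw [Matroid.map_ground]
    exact hfU _
  have hX : X ⊆ M.E := by rw [hE]; exact subset_univ _
  rw [← Matroid.map_image_indep_iff (hf := hf) hX, hrep.indep_iff, image_comp]
  rw [← routing_map_iff g hg ?_ (hfU X) hT]
  · rw [Matroid.map_ground]
    exact ⟨fun h => h.2, fun h => ⟨image_mono hX, h⟩⟩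
  · intro u v huv
    exact ⟨Or.inr (Or.inl ⟨_, huv, rfl⟩), Or.inr (Or.inr ⟨_, huv, rfl⟩)⟩

lemma exists_code {β : Type} [Finite β] (A : Set β) (a : ℕ) (h : A.ncard ≤ a) :
    ∃ c : Fin a → Option β, ∀ x, x ∈ A ↔ some x ∈ range c := by
  classical
  have hA := A.toFinite
  have hlen : hA.toFinset.toList.length ≤ a := by
    rw [Finset.length_toList, ← ncard_eq_toFinset_card A hA]
    exact h
  refine ⟨fun k => hA.toFinset.toList[k.1]?, fun x => ?_⟩
  have h1 : x ∈ A ↔ x ∈ hA.toFinset.toList := by simp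
  rw [h1]
  constructor
  · intro hx
    obtain ⟨k, hk, hkx⟩ := List.mem_iff_getElem.1 hx
    refine ⟨⟨k, hk.trans_le hlen⟩, ?_⟩
    simp only
    rw [List.getElem?_eq_getElem hk, hkx]
  · rintro ⟨k, hk⟩
    exact List.mem_of_getElem? hk

lemma bipM_arcCounts {m : ℕ} (N : Set (Fin m × Fin m)) : (arcCounts (bipM N)).Nonempty := by
  refine ⟨_, Fin m ⊕ Fin m, inferInstance, id, injOn_id _, bip N, range Sum.inr, ?_, rfl⟩
  rw [Matroid.map_id]
  exact bipM_rep N

lemma exists_large (m a w : ℕ) (hw0 : 0 < w) (hw : 2 * m + 2 * a ≤ w)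
    (hcard : w ^ (2 * m) * ((w * w + 1) ^ a * 2 ^ w) < 2 ^ (m * m)) :
    ∃ N : Set (Fin m × Fin m), a < arcC (bipM N) := by
  classical
  by_contra hcon
  push Not at hcon
  have key : ∀ N : Set (Fin m × Fin m), ∃ d : ((Fin m ⊕ Fin m) → Fin w) ×
      ((Fin a → Option (Fin w × Fin w)) × Set (Fin w)),
      ∀ X, (bipM N).Indep X ↔ ∃ R, IsRouting {x | some x ∈ range d.2.1} (d.1 '' X) d.2.2 R := by
    intro N
    have hmem : arcC (bipM N) ∈ arcCounts (bipM N) := Nat.sInf_mem (bipM_arcCounts N)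
    obtain ⟨f, A, T, hA, hI⟩ := compress (bipM_E N) hw0 (w := w) (by
      rw [Nat.card_sum, Nat.card_fin]
      have := hcon N
      omega) hmem
    obtain ⟨c, hc⟩ := exists_code A a (hA.trans (hcon N))
    refine ⟨(f, c, T), fun X => ?_⟩
    rw [hI]
    have e : A = {x | some x ∈ range c} := by
      ext x
      exact hc x
    rw [← e]
  choose F hF using key
  have hinj : Function.Injective F := by
    intro N N' h
    ext ⟨i, j⟩
    rw [bipM_recover N, bipM_recover N', hF N, hF N', h]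
  have h1 := Nat.card_le_card_of_injective F hinj
  have h2 : Nat.card (Set (Fin m × Fin m)) = 2 ^ (m * m) := by
    simp [Nat.card_eq_fintype_card]
  have h3 : Nat.card (((Fin m ⊕ Fin m) → Fin w) ×
      ((Fin a → Option (Fin w × Fin w)) × Set (Fin w))) =
      w ^ (2 * m) * ((w * w + 1) ^ a * 2 ^ w) := by
    simp [Nat.card_eq_fintype_card, two_mul]
  omega

lemma numeric (C m : ℕ) (hm : m = 2 ^ (4 * C + 8)) :
    (2 * m * (1 + C)) ^ (2 * m) * (((2 * m * (1 + C)) * (2 * m * (1 + C)) + 1) ^ (C * m) *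
      2 ^ (2 * m * (1 + C))) < 2 ^ (m * m) := by
  have hm0 : 0 < m := by rw [hm]; positivity
  set w := 2 * m * (1 + C) with hw
  have hC : 1 + C ≤ 2 ^ C := by
    have := Nat.lt_two_pow_self (n := C)
    omega
  set s := (4 * C + 8) + 1 + C with hs
  have hws : w ≤ 2 ^ s := by
    rw [hw, hs, pow_add, pow_add, ← hm, pow_one]
    calc 2 * m * (1 + C) ≤ 2 * m * 2 ^ C := Nat.mul_le_mul_left _ hC
      _ = m * 2 * 2 ^ C := by ring
  have hw0 : 0 < w := by rw [hw]; positivity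
  have hw2 : w * w + 1 ≤ 2 ^ (2 * s + 1) := by
    have h1 : w * w ≤ 2 ^ (2 * s) := by
      rw [two_mul, pow_add]
      exact Nat.mul_le_mul hws hws
    have h2 : 1 ≤ 2 ^ (2 * s) := Nat.one_le_two_pow
    rw [pow_succ]
    omega
  have hbig : 2 * s + C * (2 * s + 1) + 2 * (1 + C) < m := by
    have h16 : (1 + C) ^ 4 ≤ 2 ^ (4 * C) := by
      rw [mul_comm 4 C, pow_mul]
      exact Nat.pow_le_pow_left hC 4
    have h1 : m = 256 * 2 ^ (4 * C) := by
      rw [hm, pow_add]; ring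
    have h2 : (1 + C) ^ 2 ≤ (1 + C) ^ 4 := Nat.pow_le_pow_right (by omega) (by omega)
    rw [hs, h1]
    nlinarith
  calc w ^ (2 * m) * ((w * w + 1) ^ (C * m) * 2 ^ w)
      ≤ (2 ^ s) ^ (2 * m) * ((2 ^ (2 * s + 1)) ^ (C * m) * 2 ^ w) := by
        refine Nat.mul_le_mul (Nat.pow_le_pow_left hws _) (Nat.mul_le_mul
          (Nat.pow_le_pow_left hw2 _) le_rfl)
    _ = 2 ^ (m * (2 * s + C * (2 * s + 1) + 2 * (1 + C))) := by
        rw [← pow_mul, ← pow_mul, ← pow_add, ← pow_add, hw]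
        congr 1
        ring
    _ < 2 ^ (m * m) := Nat.pow_lt_pow_right (by omega) (Nat.mul_lt_mul_of_pos_left hbig hm0)

/-- Superlinear arc-complexity. -/
theorem exists_superlinear (C : ℕ) : ∃ (m : ℕ) (N : Set (Fin m × Fin m)), 0 < m ∧
    C * m < arcC (bipM N) := by
  refine ⟨2 ^ (4 * C + 8), ?_⟩
  obtain ⟨N, hN⟩ := exists_large (2 ^ (4 * C + 8)) (C * 2 ^ (4 * C + 8))
    (2 * 2 ^ (4 * C + 8) * (1 + C)) (by positivity) (by ring_nf; omega) (numeric C _ rfl)
  exact ⟨N, by positivity, hN⟩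

end Q163.Arc
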