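import Mathlib

/-!
# Digraphs, routings, standard representations and arc-complexity of matroids
-/

set_option autoImplicit false

namespace Q163.Arc

/-- `p` is a path of the digraph with vertex type `V` and arc set `A ⊆ V × V` (loops allowed): a
nonempty sequence of distinct vertices whose consecutive members are joined by arcs. -/
def IsPath {V : Type*} (A : Set (V × V)) (p : List V) : Prop :=
  p ≠ [] ∧ p.Nodup ∧ p.IsChain (fun u v => (u, v) ∈ A)

/-- `R` is a routing from `X` to `T`: a set of pairwise vertex-disjoint paths such that every
`x ∈ X` is the first vertex of some path of `R`, and every path of `R` ends in `T`. -/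
structure IsRouting {V : Type*} (A : Set (V × V)) (X T : Set V) (R : Set (List V)) : Prop where
  path : ∀ p ∈ R, IsPath A p
  disjoint : ∀ p ∈ R, ∀ q ∈ R, p ≠ q → ∀ v ∈ p, v ∉ q
  start : ∀ x ∈ X, ∃ p ∈ R, p.head? = some x
  stop : ∀ p ∈ R, ∃ t ∈ T, p.getLast? = some t

/-- The triple `((V, A), T, E)`, where `E` is the ground set of the matroid `M` (a set of vertices),
is a standard representation of `M`: the independent sets of `M` are the subsets of `E` that admit a
routing to `T` (so that `M = Γ(D, T, E)`), `T ⊆ E`, no arc leaves a vertex of `T`, and no arc enters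
a vertex of `E ∖ T`. -/
structure IsStandardRep {V : Type*} (A : Set (V × V)) (T : Set V) (M : Matroid V) : Prop where
  indep_iff : ∀ X : Set V, M.Indep X ↔ X ⊆ M.E ∧ ∃ R, IsRouting A X T R
  target_subset : T ⊆ M.E
  sink : ∀ t ∈ T, ∀ v, (t, v) ∉ A
  source : ∀ e ∈ M.E, e ∉ T → ∀ v, (v, e) ∉ A

/-- The numbers of arcs of the standard representations of the matroid `M`. The vertex set is any
finite set `V` that contains the ground set of `M`: the ground set is placed in `V` by a map `f`
which is injective on it, and `M.map f hf` is the copy of `M` whose ground set is its image. -/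
def arcCounts {α : Type*} (M : Matroid α) : Set ℕ :=
  {a | ∃ (V : Type) (_ : Finite V) (f : α → V) (hf : Set.InjOn f M.E) (A : Set (V × V))
    (T : Set V), IsStandardRep A T (M.map f hf) ∧ A.ncard = a}

/-- The arc-complexity of a matroid: the least number of arcs of a standard representation. (It is
a genuine minimum whenever there is a standard representation, that is, for all gammoids.) -/
noncomputable def arcC {α : Type*} (M : Matroid α) : ℕ := sInf (arcCounts M)

/-- The uniform matroid `U_{r,n}` on an `n`-element set: the independent sets are the sets with at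
most `r` elements. -/
def uniform (r n : ℕ) : Matroid (Fin n) :=
  (IndepMatroid.ofFinite (E := Set.univ) Set.finite_univ (fun X => X.ncard ≤ r)
    (by simp)
    (fun _ J hJ hIJ => (Set.ncard_le_ncard hIJ (Set.toFinite J)).trans hJ)
    (fun I J _ hJ h => by
      obtain ⟨e, he, heI⟩ := Set.exists_mem_notMem_of_ncard_lt_ncard h (Set.toFinite I)
      exact ⟨e, he, heI, (Set.ncard_insert_le e I).trans (Nat.succ_le_of_lt (h.trans_le hJ))⟩)
    (fun _ _ => Set.subset_univ _)).matroid

@[simp] lemma uniform_E (r n : ℕ) : (uniform r n).E = Set.univ := rfl

@[simp] lemma uniform_indep (r n : ℕ) (X : Set (Fin n)) :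
    (uniform r n).Indep X ↔ X.ncard ≤ r := by
  simp [uniform]

end Q163.Arc
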