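import Pool.Agent.Q163.Arc.Transport
import Pool.Agent.Helper442.FE.Link

/-!
# Gammoids exist; the bipartite family
-/

set_option autoImplicit false

namespace Q163.Arc

open Pool.Agent.Helper442

lemma exists_gam {V : Type} [Finite V] (A : Set (V × V)) (T E : Set V) :
    ∃ M : Matroid V, M.E = E ∧ ∀ X, M.Indep X ↔ X ⊆ E ∧ ∃ R, IsRouting A X T R := by
  obtain ⟨N, hN, hI⟩ := FE.exists_induced (fun u v => (u, v) ∈ A) (Matroid.freeOn T) E
  refine ⟨N, hN, fun X => ?_⟩
  rw [hI]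
  refine and_congr_right fun _ => ⟨?_, ?_⟩
  · rintro ⟨Y, hY, P, hP, hd, hs, he⟩
    rw [Matroid.freeOn_indep_iff] at hY
    refine ⟨P, fun p hp => hP p hp, ?_, ?_, ?_⟩
    · intro p hp q hq hpq v hv hv'
      exact hd p hp q hq hpq hv hv'
    · intro x hx
      rw [← hs] at hx
      exact hx
    · intro p hp
      have hne := (hP p hp).1
      refine ⟨p.getLast hne, hY ?_, List.getLast?_eq_some_getLast hne⟩
      rw [← he]
      exact ⟨p, hp, List.getLast?_eq_some_getLast hne⟩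
  · rintro ⟨R, hR⟩
    refine ⟨{y | ∃ p ∈ {p | p ∈ R ∧ ∃ x ∈ X, p.head? = some x}, p.getLast? = some y}, ?_,
      {p | p ∈ R ∧ ∃ x ∈ X, p.head? = some x}, ?_, ?_, ?_, rfl⟩
    · rw [Matroid.freeOn_indep_iff]
      rintro y ⟨p, ⟨hp, -⟩, hpy⟩
      obtain ⟨t, ht, hpt⟩ := hR.stop p hp
      rw [hpy] at hpt
      rw [Option.some.inj hpt]
      exact ht
    · rintro p ⟨hp, -⟩
      exact hR.path p hp
    · rintro p ⟨hp, -⟩ q ⟨hq, -⟩ hpq v hv hv'
      exact hR.disjoint p hp q hq hpq v hv hv'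
    · ext x
      constructor
      · rintro ⟨p, ⟨hp, x', hx', hpx'⟩, hpx⟩
        rw [hpx'] at hpx
        rw [← Option.some.inj hpx]
        exact hx'
      · intro hx
        obtain ⟨p, hp, hpx⟩ := hR.start x hx
        exact ⟨p, ⟨hp, x, hx, hpx⟩, hpx⟩

/-- The arcs of the bipartite digraph of the relation `N`. -/
def bip {m : ℕ} (N : Set (Fin m × Fin m)) : Set ((Fin m ⊕ Fin m) × (Fin m ⊕ Fin m)) :=
  (fun p => (Sum.inl p.1, Sum.inr p.2)) '' N

lemma mem_bip {m : ℕ} {N : Set (Fin m × Fin m)} {u v : Fin m ⊕ Fin m} (h : (u, v) ∈ bip N) :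
    ∃ i j, u = Sum.inl i ∧ v = Sum.inr j ∧ (i, j) ∈ N := by
  obtain ⟨⟨i, j⟩, hij, h⟩ := h
  simp only [Prod.mk.injEq] at h
  exact ⟨i, j, h.1.symm, h.2.symm, hij⟩

/-- The bipartite gammoid of the relation `N`. -/
noncomputable def bipM {m : ℕ} (N : Set (Fin m × Fin m)) : Matroid (Fin m ⊕ Fin m) :=
  (exists_gam (bip N) (Set.range Sum.inr) Set.univ).choose

lemma bipM_E {m : ℕ} (N : Set (Fin m × Fin m)) : (bipM N).E = Set.univ :=
  (exists_gam (bip N) (Set.range Sum.inr) Set.univ).choose_spec.1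

lemma bipM_indep {m : ℕ} (N : Set (Fin m × Fin m)) (X : Set (Fin m ⊕ Fin m)) :
    (bipM N).Indep X ↔ ∃ R, IsRouting (bip N) X (Set.range Sum.inr) R := by
  have h := (exists_gam (bip N) (Set.range Sum.inr) Set.univ).choose_spec.2 X
  unfold bipM
  rw [h]
  exact ⟨fun h => h.2, fun h => ⟨Set.subset_univ _, h⟩⟩

lemma bipM_recover {m : ℕ} (N : Set (Fin m × Fin m)) (i j : Fin m) :
    (i, j) ∈ N ↔ (bipM N).Indep (insert (Sum.inl i) (Set.range Sum.inr \ {Sum.inr j})) := by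
  rw [bipM_indep]
  constructor
  · intro hij
    refine ⟨insert [Sum.inl i, Sum.inr j] ((fun k => [Sum.inr k]) '' {k | k ≠ j}), ?_, ?_, ?_, ?_⟩
    · rintro p (rfl | ⟨k, hk, rfl⟩)
      · refine ⟨by simp, by simp, ?_⟩
        simp only [List.isChain_cons_cons, List.isChain_singleton, and_true]
        exact ⟨(i, j), hij, rfl⟩
      · exact ⟨by simp, by simp, by simp⟩
    · rintro p (rfl | ⟨k, hk, rfl⟩) q (rfl | ⟨l, hl, rfl⟩) hpq v hv hv'
      · exact hpq rfl
      · simp only [List.mem_cons, List.not_mem_nil, or_false] at hv hv'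
        subst hv'
        rcases hv with hv | hv
        · cases hv
        · exact hl (Sum.inr.inj hv)
      · simp only [List.mem_cons, List.not_mem_nil, or_false] at hv hv'
        subst hv
        rcases hv' with hv | hv
        · cases hv
        · exact hk (Sum.inr.inj hv)
      · simp only [List.mem_cons, List.not_mem_nil, or_false] at hv hv'
        subst hv
        rw [Sum.inr.inj hv'] at hpq
        exact hpq rfl
    · rintro x (rfl | ⟨⟨k, rfl⟩, hk⟩)
      · exact ⟨_, Or.inl rfl, rfl⟩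
      · refine ⟨[Sum.inr k], Or.inr ⟨k, ?_, rfl⟩, rfl⟩
        rintro rfl
        exact hk rfl
    · rintro p (rfl | ⟨k, hk, rfl⟩)
      · exact ⟨Sum.inr j, ⟨j, rfl⟩, rfl⟩
      · exact ⟨Sum.inr k, ⟨k, rfl⟩, rfl⟩
  · rintro ⟨R, hR⟩
    obtain ⟨p, hp, hpi⟩ := hR.start (Sum.inl i) (Or.inl rfl)
    obtain ⟨t, ⟨j₀, rfl⟩, hpt⟩ := hR.stop p hp
    obtain ⟨-, -, hc⟩ := hR.path p hp
    cases p with
    | nil => simp at hpi
    | cons a l =>
      simp only [List.head?_cons, Option.some.injEq] at hpi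
      subst hpi
      cases l with
      | nil =>
        simp at hpt
      | cons b l =>
        rw [List.isChain_cons_cons] at hc
        obtain ⟨i', j₁, h1, h2, h3⟩ := mem_bip hc.1
        cases h1
        subst h2
        by_cases hj : j₁ = j
        · rwa [← hj]
        · exfalso
          obtain ⟨q, hq, hqj⟩ := hR.start (Sum.inr j₁) (Or.inr ⟨⟨j₁, rfl⟩, fun h => hj (Sum.inr.inj h)⟩)
          refine hR.disjoint q hq _ hp ?_ (Sum.inr j₁) (List.mem_of_mem_head? hqj) (by simp)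
          rintro rfl
          simp at hqj

lemma bipM_rep {m : ℕ} (N : Set (Fin m × Fin m)) :
    IsStandardRep (bip N) (Set.range Sum.inr) (bipM N) := by
  refine ⟨fun X => ?_, ?_, ?_, ?_⟩
  · rw [bipM_indep, bipM_E]
    exact ⟨fun h => ⟨Set.subset_univ _, h⟩, fun h => h.2⟩
  · rw [bipM_E]; exact Set.subset_univ _
  · rintro _ ⟨j, rfl⟩ v h
    obtain ⟨i', j', h1, -, -⟩ := mem_bip h
    cases h1
  · intro e _ he v h
    obtain ⟨i', j', -, h1, -⟩ := mem_bip h
    exact he ⟨j', h1.symm⟩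

end Q163.Arc
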