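import Mathlib

/-!
# The matching lemma behind the network for `U_{r,n}`
-/

set_option autoImplicit false

namespace Q163.Arc

/-- The nine missing pairs. -/
def H : List (ℕ × ℕ) :=
  [(0,0), (0,1), (0,2), (1,0), (1,3), (2,1), (2,3), (3,2), (3,3)]

lemma H_lt {i j : ℕ} (h : (i, j) ∈ H) : i < 4 ∧ j < 4 := by
  simp [H] at h; omega

/-- the value at `i` of a list of length four -/
def at4 {β : Type} (a b c d : β) (i : ℕ) : β :=
  if i = 0 then a else if i = 1 then b else if i = 2 then c else d

/-- the base case, as a finite check -/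
def okB (s q : ℕ → Bool) (f : ℕ → ℕ) (i0 : ℕ) : Bool :=
  ([0,1,2,3].all fun i => !s i || q (f i)) &&
  ([0,1,2,3].all fun i => !s i || (i == i0) || !(H.contains (i, f i))) &&
  ([0,1,2,3].all fun i => [0,1,2,3].all fun j => !s i || !s j || (i == j) || !(f i == f j))

/-- search for a good matching -/
def chk (s q : ℕ → Bool) : Bool :=
  [0,1,2,3].any fun i0 => [0,1,2,3].any fun f0 => [0,1,2,3].any fun f1 => [0,1,2,3].any fun f2 =>
    [0,1,2,3].any fun f3 => okB s q (at4 f0 f1 f2 f3) i0

set_option maxRecDepth 100000 in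
lemma all_chk : ∀ s0 s1 s2 s3 q0 q1 q2 q3 : Bool,
    s0.toNat + s1.toNat + s2.toNat + s3.toNat ≤ q0.toNat + q1.toNat + q2.toNat + q3.toNat →
    chk (at4 s0 s1 s2 s3) (at4 q0 q1 q2 q3) = true := by
  decide +kernel

lemma card_range4 (S : Finset ℕ) (hS : ∀ i ∈ S, i < 4) :
    S.card = (decide (0 ∈ S)).toNat + (decide (1 ∈ S)).toNat + (decide (2 ∈ S)).toNat +
      (decide (3 ∈ S)).toNat := by
  have : S.card = ∑ i ∈ Finset.range 4, (decide (i ∈ S)).toNat := by
    rw [Finset.card_eq_sum_ones, ← Finset.sum_filter_add_sum_filter_not (Finset.range 4) (· ∈ S)]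
    have h1 : (Finset.range 4).filter (· ∈ S) = S := by
      ext i; simp only [Finset.mem_filter, Finset.mem_range]
      exact ⟨fun h => h.2, fun h => ⟨hS i h, h⟩⟩
    have h2 : ∑ i ∈ (Finset.range 4).filter (fun x => ¬ x ∈ S), (decide (i ∈ S)).toNat = 0 := by
      apply Finset.sum_eq_zero
      intro i hi
      simp only [Finset.mem_filter] at hi
      simp [hi.2]
    rw [h2, h1, add_zero]
    apply Finset.sum_congr rfl
    intro i hi; simp [hi]
  rw [this]
  simp [Finset.sum_range_succ]

lemma at4_dec (S : Finset ℕ) {i : ℕ} (hi : i < 4) :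
    at4 (decide (0 ∈ S)) (decide (1 ∈ S)) (decide (2 ∈ S)) (decide (3 ∈ S)) i = decide (i ∈ S) := by
  interval_cases i <;> rfl

/-- The matching lemma: `S` can be matched into `Q` such that at most one of the pairs is not an
arc, and this pair consists of numbers smaller than four. -/
lemma matching (n : ℕ) : ∀ S Q : Finset ℕ, S.card = n → S.card ≤ Q.card →
    ∃ (f : ℕ → ℕ) (i0 : ℕ), Set.InjOn f S ∧ (∀ i ∈ S, f i ∈ Q) ∧
      ∀ i ∈ S, (i, f i) ∉ H ∨ (i = i0 ∧ i < 4 ∧ f i < 4) := by
  induction n with
  | zero =>
    intro S Q hS _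
    have : S = ∅ := Finset.card_eq_zero.1 hS
    subst this
    exact ⟨id, 0, by simp, by simp, by simp⟩
  | succ n ih =>
    intro S Q hS hSQ
    have step : ∀ i ∈ S, ∀ j ∈ Q, (i, j) ∉ H → ∃ (f : ℕ → ℕ) (i0 : ℕ), Set.InjOn f S ∧
        (∀ i ∈ S, f i ∈ Q) ∧ ∀ i ∈ S, (i, f i) ∉ H ∨ (i = i0 ∧ i < 4 ∧ f i < 4) := by
      intro i hi j hj hij
      obtain ⟨f, i0, h1, h2, h3⟩ := ih (S.erase i) (Q.erase j)
        (by rw [Finset.card_erase_of_mem hi, hS]; rfl)
        (by rw [Finset.card_erase_of_mem hi, Finset.card_erase_of_mem hj]; omega)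
      refine ⟨fun k => if k = i then j else f k, i0, ?_, ?_, ?_⟩
      · intro a ha b hb hab
        simp only [Finset.mem_coe] at ha hb
        by_cases hai : a = i
        · by_cases hbi : b = i
          · rw [hai, hbi]
          · exfalso
            simp only [hai, hbi, if_true, if_false] at hab
            have := h2 b (Finset.mem_erase.2 ⟨hbi, hb⟩)
            rw [← hab] at this
            simp at this
        · by_cases hbi : b = i
          · exfalso
            simp only [hai, hbi, if_true, if_false] at hab
            have := h2 a (Finset.mem_erase.2 ⟨hai, ha⟩)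
            rw [hab] at this
            simp at this
          · simp only [hai, hbi, if_false] at hab
            exact h1 (by simp [hai, ha]) (by simp [hbi, hb]) hab
      · intro a ha
        by_cases hai : a = i
        · simp [hai, hj]
        · simp only [hai, if_false]
          exact Finset.mem_of_mem_erase (h2 a (Finset.mem_erase.2 ⟨hai, ha⟩))
      · intro a ha
        by_cases hai : a = i
        · left; simp only [hai, if_true]; exact hij
        · simp only [hai, if_false]
          exact h3 a (Finset.mem_erase.2 ⟨hai, ha⟩)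
    have hSne : S.Nonempty := Finset.card_pos.1 (by omega)
    have hQne : Q.Nonempty := Finset.card_pos.1 (by omega)
    by_cases hS4 : ∃ i ∈ S, 4 ≤ i
    · obtain ⟨i, hi, hi4⟩ := hS4
      obtain ⟨j, hj⟩ := hQne
      exact step i hi j hj (fun h => by have := (H_lt h).1; omega)
    · by_cases hQ4 : ∃ j ∈ Q, 4 ≤ j
      · obtain ⟨j, hj, hj4⟩ := hQ4
        obtain ⟨i, hi⟩ := hSne
        exact step i hi j hj (fun h => by have := (H_lt h).2; omega)
      · push Not at hS4 hQ4
        have hc := all_chk (decide (0 ∈ S)) (decide (1 ∈ S)) (decide (2 ∈ S)) (decide (3 ∈ S))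
          (decide (0 ∈ Q)) (decide (1 ∈ Q)) (decide (2 ∈ Q)) (decide (3 ∈ Q))
          (by rw [← card_range4 S hS4, ← card_range4 Q hQ4]; exact hSQ)
        unfold chk at hc
        simp only [List.any_eq_true] at hc
        obtain ⟨i0, hi0, f0, hf0, f1, hf1, f2, hf2, f3, hf3, hok⟩ := hc
        have hf4 : ∀ i, at4 f0 f1 f2 f3 i < 4 := by
          intro i
          have h0 : f0 < 4 := by simp at hf0; omega
          have h1 : f1 < 4 := by simp at hf1; omega
          have h2 : f2 < 4 := by simp at hf2; omega
          have h3 : f3 < 4 := by simp at hf3; omega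
          unfold at4
          split_ifs <;> assumption
        unfold okB at hok
        rw [Bool.and_eq_true, Bool.and_eq_true] at hok
        obtain ⟨⟨hA, hB⟩, hC⟩ := hok
        have mem4 : ∀ i, i < 4 → i ∈ [0,1,2,3] := by
          intro i hi; simp; omega
        refine ⟨at4 f0 f1 f2 f3, i0, ?_, ?_, ?_⟩
        · intro a ha b hb hab
          simp only [Finset.mem_coe] at ha hb
          rw [List.all_eq_true] at hC
          have h1 := hC a (mem4 a (hS4 a ha))
          rw [List.all_eq_true] at h1
          have h2 := h1 b (mem4 b (hS4 b hb))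
          rw [at4_dec S (hS4 a ha), at4_dec S (hS4 b hb), hab] at h2
          simpa [ha, hb] using h2
        · intro a ha
          rw [List.all_eq_true] at hA
          have h1 := hA a (mem4 a (hS4 a ha))
          rw [at4_dec S (hS4 a ha), at4_dec Q (hf4 a)] at h1
          simpa [ha] using h1
        · intro a ha
          rw [List.all_eq_true] at hB
          have h1 := hB a (mem4 a (hS4 a ha))
          rw [at4_dec S (hS4 a ha)] at h1
          simp only [ha, decide_true, Bool.not_true, Bool.false_or, Bool.or_eq_true, beq_iff_eq,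
            Bool.not_eq_true', List.contains_eq_mem, decide_eq_false_iff_not] at h1
          rcases h1 with h1 | h1
          · right; exact ⟨h1, hS4 a ha, hf4 a⟩
          · left; exact h1

end Q163.Arc
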