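import Pool.Agent.Q163.Arc.Basic
import Pool.Agent.Q163.Arc.Match

/-!
# A network for the uniform matroid `U_{r,n}` with fewer than `r (n - r)` arcs
-/

set_option autoImplicit false

namespace Q163.Arc

open Finset

/-- the vertices: the ground set and one further vertex -/
abbrev Vt (n : ℕ) : Type := Fin n ⊕ Unit

/-- the targets -/
def tg (r n : ℕ) : Finset (Vt n) := (univ.filter fun i : Fin n => i.val < r).map Function.Embedding.inl

/-- the sources -/
def sr (r n : ℕ) : Finset (Vt n) := (univ.filter fun i : Fin n => r ≤ i.val).map Function.Embedding.inl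

/-- the vertex with number `j` -/
def vx (n : ℕ) (j : ℕ) : Vt n := if h : j < n then Sum.inl ⟨j, h⟩ else Sum.inr ()

/-- the missing arcs -/
def miss (r n : ℕ) : Finset (Vt n × Vt n) :=
  (H.toFinset).image fun p => (vx n (p.1 + r), vx n p.2)

/-- arcs into the hub -/
def hin (r n : ℕ) : Finset (Vt n × Vt n) := (range 4).image fun a => (vx n (a + r), Sum.inr ())

/-- arcs out of the hub -/
def hout (n : ℕ) : Finset (Vt n × Vt n) := (range 4).image fun b => (Sum.inr (), vx n b)

/-- all arcs -/
def arcs (r n : ℕ) : Finset (Vt n × Vt n) :=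
  ((sr r n ×ˢ tg r n) \ miss r n) ∪ (hin r n ∪ hout n)

variable {r n : ℕ}

lemma card_tg (h : r ≤ n) : (tg r n).card = r := by
  unfold tg
  rw [card_map]
  have : (univ.filter fun i : Fin n => i.val < r) = (univ : Finset (Fin r)).map
      (Fin.castLEEmb h) := by
    ext i
    simp only [mem_filter, mem_univ, true_and, mem_map, Fin.castLEEmb_apply]
    constructor
    · intro hi
      exact ⟨⟨i.val, hi⟩, by ext; rfl⟩
    · rintro ⟨a, rfl⟩
      exact a.isLt
  rw [this, card_map, card_univ, Fintype.card_fin]

lemma card_sr (h : r ≤ n) : (sr r n).card = n - r := by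
  unfold sr
  rw [card_map]
  have h1 := Finset.card_filter_add_card_filter_not (s := (univ : Finset (Fin n)))
    (fun i : Fin n => i.val < r)
  have h2 := card_tg h
  unfold tg at h2
  rw [card_map] at h2
  rw [h2, card_univ, Fintype.card_fin] at h1
  simp only [not_lt] at h1
  omega

lemma vx_inj {i j : ℕ} (hi : i < n) (hj : j < n) (h : vx n i = vx n j) : i = j := by
  unfold vx at h
  rw [dif_pos hi, dif_pos hj] at h
  simpa using h

lemma card_miss (hr : 4 ≤ r) (hn : r + 4 ≤ n) : (miss r n).card = 9 := by
  unfold miss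
  rw [card_image_of_injOn]
  · decide
  · intro p hp q hq hpq
    have h1 := H_lt (i := p.1) (j := p.2) (by simpa using hp)
    have h2 := H_lt (i := q.1) (j := q.2) (by simpa using hq)
    simp only [Prod.mk.injEq] at hpq
    have h3 := vx_inj (by omega) (by omega) hpq.1
    have h4 := vx_inj (by omega) (by omega) hpq.2
    ext <;> omega

lemma miss_subset (hr : 4 ≤ r) (hn : r + 4 ≤ n) : miss r n ⊆ sr r n ×ˢ tg r n := by
  intro p hp
  unfold miss at hp
  rw [mem_image] at hp
  obtain ⟨⟨a, b⟩, hab, rfl⟩ := hp
  have h1 := H_lt (i := a) (j := b) (by simpa using hab)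
  unfold sr tg vx
  rw [mem_product]
  simp only [mem_map, mem_filter, mem_univ, true_and, Function.Embedding.inl_apply]
  constructor
  · rw [dif_pos (by omega)]
    exact ⟨⟨a + r, by omega⟩, by simp, rfl⟩
  · rw [dif_pos (by omega)]
    exact ⟨⟨b, by omega⟩, by simp; omega, rfl⟩

lemma card_arcs (hr : 4 ≤ r) (hn : r + 4 ≤ n) : (arcs r n).card < r * (n - r) := by
  have h1 : ((sr r n ×ˢ tg r n) \ miss r n).card = r * (n - r) - 9 := by
    rw [card_sdiff_of_subset (miss_subset hr hn), card_miss hr hn, card_product,
      card_sr (by omega), card_tg (by omega), Nat.mul_comm]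
  have h2 : (hin r n).card ≤ 4 := by
    unfold hin; exact card_image_le.trans (by simp)
  have h3 : (hout n).card ≤ 4 := by
    unfold hout; exact card_image_le.trans (by simp)
  have h4 : 16 ≤ r * (n - r) := by
    calc 16 = 4 * 4 := rfl
      _ ≤ r * (n - r) := Nat.mul_le_mul hr (by omega)
  have h5 := card_union_le ((sr r n ×ˢ tg r n) \ miss r n) (hin r n ∪ hout n)
  have h6 := card_union_le (hin r n) (hout n)
  unfold arcs
  omega

lemma inl_mem_tg {i : Fin n} : (Sum.inl i : Vt n) ∈ tg r n ↔ i.val < r := by
  simp [tg]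

lemma inr_mem_tg {u : Unit} : (Sum.inr u : Vt n) ∉ tg r n := by
  simp [tg]

lemma inl_mem_sr {i : Fin n} : (Sum.inl i : Vt n) ∈ sr r n ↔ r ≤ i.val := by
  simp [sr]

lemma inr_mem_sr {u : Unit} : (Sum.inr u : Vt n) ∉ sr r n := by
  simp [sr]

lemma no_out (t : Vt n) (ht : t ∈ tg r n) (v : Vt n) : (t, v) ∉ arcs r n := by
  obtain ⟨i, rfl⟩ | ⟨u, rfl⟩ : (∃ i, t = Sum.inl i) ∨ (∃ u, t = Sum.inr u) := by
    rcases t with i | u
    · exact Or.inl ⟨i, rfl⟩
    · exact Or.inr ⟨u, rfl⟩
  · rw [inl_mem_tg] at ht
    intro h
    unfold arcs at h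
    rw [mem_union, mem_union, mem_sdiff, mem_product] at h
    rcases h with ⟨h, -⟩ | h | h
    · rw [inl_mem_sr] at h; omega
    · unfold hin vx at h
      rw [mem_image] at h
      obtain ⟨a, ha, h⟩ := h
      simp only [Prod.mk.injEq] at h
      have h := h.1
      split_ifs at h
      simp only [Sum.inl.injEq] at h
      subst h
      simp at ht
    · unfold hout at h
      rw [mem_image] at h
      obtain ⟨a, ha, h⟩ := h
      simp at h
  · exact absurd ht inr_mem_tg

lemma no_in (hr : 4 ≤ r) (i : Fin n) (hi : r ≤ i.val) (v : Vt n) :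
    (v, Sum.inl i) ∉ arcs r n := by
  intro h
  unfold arcs at h
  rw [mem_union, mem_union, mem_sdiff, mem_product] at h
  rcases h with ⟨h, -⟩ | h | h
  · rw [inl_mem_tg] at h; omega
  · unfold hin at h
    rw [mem_image] at h
    obtain ⟨a, ha, h⟩ := h
    simp at h
  · unfold hout vx at h
    rw [mem_image] at h
    obtain ⟨a, ha, h⟩ := h
    simp only [Prod.mk.injEq] at h
    have h := h.2
    rw [mem_range] at ha
    split_ifs at h with h'
    simp only [Sum.inl.injEq] at h
    subst h
    simp at hi
    omega

/-- the path which starts in the `i`-th vertex -/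
def pth (r : ℕ) {n : ℕ} (f : ℕ → ℕ) (i : Fin n) : List (Vt n) :=
  if i.val < r then [Sum.inl i]
  else if (i.val - r, f (i.val - r)) ∈ H then [Sum.inl i, Sum.inr (), vx n (f (i.val - r))]
  else [Sum.inl i, vx n (f (i.val - r))]

lemma pth_head (f : ℕ → ℕ) (i : Fin n) : (pth r f i).head? = some (Sum.inl i) := by
  unfold pth
  split_ifs <;> rfl

lemma mem_pth {f : ℕ → ℕ} {i : Fin n} {v : Vt n} (h : v ∈ pth r f i) :
    v = Sum.inl i ∨ (r ≤ i.val ∧ v = vx n (f (i.val - r))) ∨
      (v = Sum.inr () ∧ r ≤ i.val ∧ (i.val - r, f (i.val - r)) ∈ H) := by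
  unfold pth at h
  split_ifs at h with h1 h2
  · simp at h; exact Or.inl h
  · push Not at h1
    simp only [List.mem_cons, List.not_mem_nil, or_false] at h
    rcases h with h | h | h
    · exact Or.inl h
    · exact Or.inr (Or.inr ⟨h, h1, h2⟩)
    · exact Or.inr (Or.inl ⟨h1, h⟩)
  · push Not at h1
    simp only [List.mem_cons, List.not_mem_nil, or_false] at h
    rcases h with h | h
    · exact Or.inl h
    · exact Or.inr (Or.inl ⟨h1, h⟩)

/-- the sets with at most `r` elements have routings -/
lemma exists_routing (hr : 4 ≤ r) (hn : r + 4 ≤ n) (X : Finset (Fin n)) (hX : X.card ≤ r) :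
    ∃ R, IsRouting (arcs r n : Set (Vt n × Vt n)) (Sum.inl '' (X : Set (Fin n)))
      (tg r n : Set (Vt n)) R := by
  classical
  -- the sources in `X` and the targets outside `X`
  set S : Finset ℕ := (X.filter fun i => r ≤ i.val).image fun i => i.val - r with hS
  set Q : Finset ℕ := (range r).filter fun j => ¬ ∃ i ∈ X, i.val = j with hQ
  have hcardS : S.card = (X.filter fun i => r ≤ i.val).card := by
    apply card_image_of_injOn
    intro a ha b hb hab
    simp only [coe_filter, Set.mem_ofPred_eq] at ha hb
    have : a.val - r = b.val - r := hab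
    ext; omega
  have hcardQ : Q.card + (X.filter fun i => i.val < r).card = r := by
    have h1 := Finset.card_filter_add_card_filter_not (s := range r)
      (fun j => ∃ i ∈ X, i.val = j)
    have h2 : ((range r).filter fun j => ∃ i ∈ X, i.val = j).card =
        (X.filter fun i => i.val < r).card := by
      have : ((range r).filter fun j => ∃ i ∈ X, i.val = j) =
          (X.filter fun i => i.val < r).image fun i => i.val := by
        ext j
        simp only [mem_filter, mem_range, mem_image]
        constructor
        · rintro ⟨hj, i, hi, rfl⟩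
          exact ⟨i, ⟨hi, hj⟩, rfl⟩
        · rintro ⟨i, ⟨hi, hj⟩, rfl⟩
          exact ⟨hj, i, hi, rfl⟩
      rw [this]
      apply card_image_of_injOn
      intro a _ b _ hab
      ext; exact hab
    rw [h2, card_range] at h1
    rw [hQ]
    omega
  have hXsplit : (X.filter fun i => i.val < r).card + (X.filter fun i => r ≤ i.val).card =
      X.card := by
    have h1 := Finset.card_filter_add_card_filter_not (s := X) (fun i => i.val < r)
    simp only [not_lt] at h1
    exact h1
  obtain ⟨f, i0, hf1, hf2, hf3⟩ := matching S.card S Q rfl (by omega)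
  have hmemS : ∀ i ∈ X, r ≤ i.val → i.val - r ∈ S := by
    intro i hi hri
    rw [hS, mem_image]
    exact ⟨i, mem_filter.2 ⟨hi, hri⟩, rfl⟩
  have hfr : ∀ i ∈ X, r ≤ i.val → f (i.val - r) < r ∧ ∀ k ∈ X, k.val ≠ f (i.val - r) := by
    intro i hi hri
    have h := hf2 _ (hmemS i hi hri)
    rw [hQ, mem_filter, mem_range] at h
    refine ⟨h.1, fun k hk hk2 => h.2 ⟨k, hk, hk2⟩⟩
  have hvx : ∀ i ∈ X, r ≤ i.val → ∃ t : Fin n, vx n (f (i.val - r)) = Sum.inl t ∧
      t.val = f (i.val - r) := by
    intro i hi hri
    have h := (hfr i hi hri).1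
    refine ⟨⟨f (i.val - r), by omega⟩, ?_, rfl⟩
    unfold vx
    rw [dif_pos]
  refine ⟨(fun i => pth r f i) '' (X : Set (Fin n)), ?_, ?_, ?_, ?_⟩
  · -- these are paths
    rintro p ⟨i, hi, rfl⟩
    simp only [mem_coe] at hi
    simp only [pth]
    split_ifs with h1 h2
    · exact ⟨by simp, by simp, by simp⟩
    · push Not at h1
      obtain ⟨t, ht, htv⟩ := hvx i hi h1
      rw [ht]
      have htr := (hfr i hi h1).1
      have hlt := H_lt h2
      refine ⟨by simp, ?_, ?_⟩
      · simp only [List.nodup_cons, List.mem_cons, List.mem_singleton, Sum.inl.injEq,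
          List.not_mem_nil, not_false_eq_true, List.nodup_nil, and_true, reduceCtorEq, false_or,
          or_false]
        intro hit
        rw [← hit] at htv
        omega
      · simp only [List.isChain_cons_cons, List.isChain_singleton, and_true, mem_coe]
        unfold arcs
        constructor
        · rw [mem_union, mem_union]
          right; left
          unfold hin
          rw [mem_image]
          refine ⟨i.val - r, mem_range.2 hlt.1, ?_⟩
          unfold vx
          rw [dif_pos (by omega)]
          simp only [Prod.mk.injEq, Sum.inl.injEq, and_true]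
          ext; simp; omega
        · rw [mem_union, mem_union]
          right; right
          unfold hout
          rw [mem_image]
          refine ⟨f (i.val - r), mem_range.2 hlt.2, ?_⟩
          rw [ht]
    · push Not at h1
      obtain ⟨t, ht, htv⟩ := hvx i hi h1
      rw [ht]
      have htr := (hfr i hi h1).1
      refine ⟨by simp, ?_, ?_⟩
      · simp only [List.nodup_cons, List.mem_singleton, Sum.inl.injEq, List.not_mem_nil,
          not_false_eq_true, List.nodup_nil, and_true]
        intro hit
        rw [← hit] at htv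
        omega
      · simp only [List.isChain_cons_cons, List.isChain_singleton, and_true, mem_coe]
        unfold arcs
        rw [mem_union, mem_sdiff, mem_product]
        left
        refine ⟨⟨inl_mem_sr.2 h1, inl_mem_tg.2 (by omega)⟩, ?_⟩
        intro hm
        unfold miss at hm
        rw [mem_image] at hm
        obtain ⟨⟨a, b⟩, hab, hab2⟩ := hm
        have hab' : (a, b) ∈ H := by simpa using hab
        have hlt := H_lt hab'
        simp only [Prod.mk.injEq] at hab2
        unfold vx at hab2
        rw [dif_pos (by omega), dif_pos (by omega)] at hab2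
        simp only [Sum.inl.injEq] at hab2
        apply h2
        have e1 : i.val - r = a := by rw [← hab2.1]; simp
        have e2 : f (i.val - r) = b := by rw [← htv, ← hab2.2]
        rw [e1] at e2 ⊢
        rw [e2]
        exact hab'
  · -- they are disjoint
    rintro p ⟨i, hi, rfl⟩ q ⟨k, hk, rfl⟩ hpq v hv hv'
    simp only [mem_coe] at hi hk
    have hik : i ≠ k := fun h => hpq (by rw [h])
    rcases mem_pth hv with h | ⟨h1, h⟩ | ⟨h, h1, h2⟩
    · rcases mem_pth hv' with h' | ⟨h1', h'⟩ | ⟨h', -, -⟩
      · rw [h] at h'; exact hik (Sum.inl.inj h')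
      · obtain ⟨t, ht, htv⟩ := hvx k hk h1'
        rw [h, ht] at h'
        have := Sum.inl.inj h'
        exact (hfr k hk h1').2 i hi (by rw [this]; exact htv)
      · rw [h] at h'; simp at h'
    · obtain ⟨t, ht, htv⟩ := hvx i hi h1
      rcases mem_pth hv' with h' | ⟨h1', h'⟩ | ⟨h', -, -⟩
      · rw [h, ht] at h'
        have := Sum.inl.inj h'
        exact (hfr i hi h1).2 k hk (by rw [← this]; exact htv)
      · obtain ⟨t', ht', htv'⟩ := hvx k hk h1'
        rw [h, ht, ht'] at h'
        have := Sum.inl.inj h'
        have e : f (i.val - r) = f (k.val - r) := by rw [← htv, ← htv', this]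
        have := hf1 (mem_coe.2 (hmemS i hi h1)) (mem_coe.2 (hmemS k hk h1')) e
        exact hik (by ext; omega)
      · rw [h, ht] at h'; simp at h'
    · rcases mem_pth hv' with h' | ⟨h1', h'⟩ | ⟨-, h1', h2'⟩
      · rw [h] at h'; simp at h'
      · obtain ⟨t', ht', htv'⟩ := hvx k hk h1'
        rw [h, ht'] at h'; simp at h'
      · have e1 := hf3 _ (hmemS i hi h1)
        have e2 := hf3 _ (hmemS k hk h1')
        rcases e1 with e1 | e1
        · exact e1 h2
        · rcases e2 with e2 | e2
          · exact e2 h2'
          · exact hik (by ext; omega)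
  · -- they start in the right points
    rintro x ⟨i, hi, rfl⟩
    exact ⟨pth r f i, ⟨i, hi, rfl⟩, pth_head f i⟩
  · -- they end in the targets
    rintro p ⟨i, hi, rfl⟩
    simp only [mem_coe] at hi
    simp only [pth]
    split_ifs with h1 h2
    · exact ⟨Sum.inl i, mem_coe.2 (inl_mem_tg.2 h1), by simp⟩
    · push Not at h1
      obtain ⟨t, ht, htv⟩ := hvx i hi h1
      have htr := (hfr i hi h1).1
      exact ⟨Sum.inl t, mem_coe.2 (inl_mem_tg.2 (by omega)), by simp [ht]⟩
    · push Not at h1
      obtain ⟨t, ht, htv⟩ := hvx i hi h1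
      have htr := (hfr i hi h1).1
      exact ⟨Sum.inl t, mem_coe.2 (inl_mem_tg.2 (by omega)), by simp [ht]⟩

/-- The network is a standard representation of `U_{r,n}`. -/
theorem standardRep (hr : 4 ≤ r) (hn : r + 4 ≤ n) :
    IsStandardRep (arcs r n : Set (Vt n × Vt n)) (tg r n : Set (Vt n))
      ((uniform r n).map (Sum.inl : Fin n → Vt n) Sum.inl_injective.injOn) := by
  classical
  refine ⟨?_, ?_, ?_, ?_⟩
  · intro X
    rw [Matroid.map_indep_iff]
    constructor
    · rintro ⟨X0, hX0, rfl⟩
      rw [uniform_indep] at hX0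
      refine ⟨by simp, ?_⟩
      have := exists_routing hr hn X0.toFinite.toFinset
        (by rw [← Set.ncard_eq_toFinset_card]; exact hX0)
      rw [Set.Finite.coe_toFinset] at this
      exact this
    · rintro ⟨hX, R, hR⟩
      have hXr : X ⊆ Set.range Sum.inl := by simpa using hX
      refine ⟨Sum.inl ⁻¹' X, ?_, ?_⟩
      · rw [uniform_indep]
        have h1 := hR.ncard_le (Finset.finite_toSet _)
        rw [Set.ncard_coe_finset, card_tg (by omega)] at h1
        rw [Set.ncard_preimage_of_injective_subset_range Sum.inl_injective hXr]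
        exact h1
      · rw [Set.image_preimage_eq_of_subset hXr]
  · intro t ht
    rw [mem_coe] at ht
    rcases t with i | u
    · simp
    · exact absurd ht inr_mem_tg
  · intro t ht v
    rw [mem_coe]
    exact no_out t (mem_coe.1 ht) v
  · intro e he heT v
    rw [mem_coe]
    rcases e with i | u
    · rw [mem_coe, inl_mem_tg, not_lt] at heT
      exact no_in hr i heT v
    · simp at he

end Q163.Arc
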