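import Pool.Agent.Q163.Arc.Basic

/-!
# Transport of routings along injective maps
-/

set_option autoImplicit false

namespace Q163.Arc

variable {V W : Type*}

lemma chain_mem {A : Set (V × V)} {U : Set V} (hA : ∀ u v, (u, v) ∈ A → u ∈ U ∧ v ∈ U) :
    ∀ p : List V, p.IsChain (fun u v => (u, v) ∈ A) → (∃ t ∈ U, p.getLast? = some t) →
      ∀ v ∈ p, v ∈ U := by
  intro p
  induction p with
  | nil => intro _ _ v hv; simp at hv
  | cons a l ih =>
    intro hc hl v hv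
    cases l with
    | nil =>
      obtain ⟨t, ht, hat⟩ := hl
      simp at hat hv
      rw [hv, hat]; exact ht
    | cons b l =>
      rw [List.isChain_cons_cons] at hc
      rw [List.getLast?_cons_cons] at hl
      rcases List.mem_cons.1 hv with h | h
      · rw [h]; exact (hA a b hc.1).1
      · exact ih hc.2 hl v h

lemma IsRouting.mem {A : Set (V × V)} {X T U : Set V} {R : Set (List V)}
    (h : IsRouting A X T R) (hA : ∀ u v, (u, v) ∈ A → u ∈ U ∧ v ∈ U) (hT : T ⊆ U) :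
    ∀ p ∈ R, ∀ v ∈ p, v ∈ U := by
  intro p hp
  obtain ⟨t, ht, hpt⟩ := h.stop p hp
  exact chain_mem hA p (h.path p hp).2.2 ⟨t, hT ht, hpt⟩

lemma routing_map {A : Set (V × V)} {X T U : Set V} (g : V → W) (hg : Set.InjOn g U)
    (hA : ∀ u v, (u, v) ∈ A → u ∈ U ∧ v ∈ U) (hT : T ⊆ U)
    (h : ∃ R, IsRouting A X T R) :
    ∃ R, IsRouting (Prod.map g g '' A) (g '' X) (g '' T) R := by
  obtain ⟨R, hR⟩ := h
  have hU := hR.mem hA hT
  refine ⟨List.map g '' R, ?_, ?_, ?_, ?_⟩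
  · rintro _ ⟨p, hp, rfl⟩
    obtain ⟨h1, h2, h3⟩ := hR.path p hp
    refine ⟨by simpa using h1, ?_, ?_⟩
    · exact h2.map_on fun x hx y hy hxy => hg (hU p hp x hx) (hU p hp y hy) hxy
    · rw [List.isChain_map]
      exact h3.imp fun u v huv => ⟨(u, v), huv, rfl⟩
  · rintro _ ⟨p, hp, rfl⟩ _ ⟨q, hq, rfl⟩ hpq v hv hv'
    rw [List.mem_map] at hv hv'
    obtain ⟨x, hx, rfl⟩ := hv
    obtain ⟨y, hy, hxy⟩ := hv'
    have hxy' := hg (hU q hq y hy) (hU p hp x hx) hxy
    subst hxy'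
    exact hR.disjoint p hp q hq (fun h => hpq (by rw [h])) y hx hy
  · rintro _ ⟨x, hx, rfl⟩
    obtain ⟨p, hp, hpx⟩ := hR.start x hx
    exact ⟨_, ⟨p, hp, rfl⟩, by rw [List.head?_map, hpx]; rfl⟩
  · rintro _ ⟨p, hp, rfl⟩
    obtain ⟨t, ht, hpt⟩ := hR.stop p hp
    exact ⟨g t, ⟨t, ht, rfl⟩, by rw [List.getLast?_map, hpt]; rfl⟩

lemma routing_map_iff {A : Set (V × V)} {X T U : Set V} (g : V → W) (hg : Set.InjOn g U)
    (hA : ∀ u v, (u, v) ∈ A → u ∈ U ∧ v ∈ U) (hX : X ⊆ U) (hT : T ⊆ U) :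
    (∃ R, IsRouting A X T R) ↔
      ∃ R, IsRouting (Prod.map g g '' A) (g '' X) (g '' T) R := by
  classical
  refine ⟨routing_map g hg hA hT, fun h => ?_⟩
  by_cases hne : Nonempty V
  · have hinv : Set.LeftInvOn (Function.invFunOn g U) g U := hg.leftInvOn_invFunOn
    have h1 := routing_map (U := g '' U) (Function.invFunOn g U)
      (by
        rintro _ ⟨x, hx, rfl⟩ _ ⟨y, hy, rfl⟩ hxy
        rw [hinv hx, hinv hy] at hxy
        rw [hxy])
      (by
        rintro u v ⟨⟨a, b⟩, hab, hab2⟩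
        simp only [Prod.map_apply, Prod.mk.injEq] at hab2
        rw [← hab2.1, ← hab2.2]
        exact ⟨⟨a, (hA a b hab).1, rfl⟩, ⟨b, (hA a b hab).2, rfl⟩⟩)
      (Set.image_mono hT) h
    have e1 : Prod.map (Function.invFunOn g U) (Function.invFunOn g U) '' (Prod.map g g '' A) =
        A := by
      ext ⟨u, v⟩
      constructor
      · rintro ⟨_, ⟨⟨a, b⟩, hab, rfl⟩, hab2⟩
        simp only [Prod.map_apply, Prod.mk.injEq] at hab2
        rw [hinv (hA a b hab).1, hinv (hA a b hab).2] at hab2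
        rw [← hab2.1, ← hab2.2]; exact hab
      · intro huv
        refine ⟨_, ⟨(u, v), huv, rfl⟩, ?_⟩
        simp only [Prod.map_apply, Prod.mk.injEq]
        exact ⟨hinv (hA u v huv).1, hinv (hA u v huv).2⟩
    have e2 : ∀ Z ⊆ U, Function.invFunOn g U '' (g '' Z) = Z := by
      intro Z hZ
      exact (hinv.mono hZ).image_image
    rw [e1, e2 X hX, e2 T hT] at h1
    exact h1
  · have hV : IsEmpty V := not_nonempty_iff.1 hne
    refine ⟨∅, by simp, by simp, ?_, by simp⟩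
    intro x
    exact hV.elim x

end Q163.Arc
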